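import Pool.Agent.Lib.H8X.X
import Pool.Agent.Lib.H36V.Draw8

/-!
# H8X, file FinA: form A of MP_33911d, complete
-/

set_option autoImplicit false

open SimpleDraw

namespace H8X

theorem exchV (V : Type) [Fintype V] [DecidableEq V] : H36V.Exch V :=
  fun _ _ _ _ _ _ hT hb hd hbU hdU hU hin => exch hT hb hd hbU hdU hU hin

/-- FORM A: for every graph `R` and every graph `U` of uncrossed edges. -/
theorem mainA {n : ℕ} (hn : 4 ≤ n) (D : SimpleDrawing n) (R U : SimpleGraph (Fin n))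
    (hU : ∀ i j, U.Adj i j → ∀ k l, k ≠ l → s(i, j) ≠ s(k, l) → ∀ p ∈ D.curve i j ∩ D.curve k l,
      ∃ v, (v = i ∨ v = j) ∧ (v = k ∨ v = l) ∧ p = D.pt v) :
    ∃ G H F : SimpleGraph (Fin n), D.Plane G ∧ U ≤ G ∧ F ≤ H ∧ H ≤ G ∧ H.Connected ∧
      (∀ v, (H.induce {w | w ≠ v}).Connected) ∧ H.edgeSet.ncard = 2 * n - 3 ∧
      (∀ v, (F.neighborSet v).ncard = 2) ∧
      (∀ (v : Fin n) (c : F.Walk v v), c.IsCycle → min n 5 ≤ c.length) ∧
      ((R ⊔ U ≤ F ∧ ∃ (v : Fin n) (c : F.Walk v v), c.IsHamiltonianCycle) ∨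
        ∀ u v, ((G ⊔ R).induce {w | w ≠ u ∧ w ≠ v}).Connected) :=
  H36V.mainA (fun n => exchV (Fin n)) hn D R U hU

end H8X
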