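import Pool.Agent.Lib.H63B.B

/-!
# H8X, file Q: closing a path through a connected set, with a prescribed vertex (MP_33911d)
-/

set_option autoImplicit false
set_option linter.unusedSectionVars false

namespace H8X

open Finset H98M LD H85TF H47G5 H63B

variable {V : Type*} [Fintype V] [DecidableEq V]

/-- A path `F` from `a` to `b` is closed to a cycle through the connected set `K`, through the vertex `u` of `K`. -/
theorem close_path {E F : Finset (Sym2 V)} (hF : F ⊆ E) {a b u : V} {K : Finset V} (hab : a ≠ b)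
    (habF : s(a, b) ∉ F) (ha : dg F a = 1) (hb : dg F b = 1) (ho : ∀ v, v ≠ a → v ≠ b → dg F v = 0 ∨ dg F v = 2)
    (hcl : ∀ T : Finset V, (∀ x ∈ T, ∀ y, s(x, y) ∈ F → y ∈ T) → (a ∈ T → b ∈ T) → (b ∈ T → a ∈ T) →
      ∀ x ∈ T, dg F x ≠ 0 → ∀ y, dg F y ≠ 0 → y ∈ T)
    (hK : ¬ Disc K E) (hK0 : ∀ k ∈ K, dg F k = 0) (hu : u ∈ K) (hau : s(a, u) ∈ E) (hbK : ∃ k ∈ K, s(b, k) ∈ E) :
    ∃ F' ⊆ E, OneF F' ∧ F ⊆ F' ∧ dg F' u = 2 ∧ (∀ v, dg F v ≠ 0 → dg F' v = 2) ∧
      ∀ v, dg F' v ≠ 0 → dg F v ≠ 0 ∨ v ∈ K := by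
  have haK : a ∉ K := fun h => by have := hK0 a h; omega
  have hbK' : b ∉ K := fun h => by have := hK0 b h; omega
  obtain ⟨kb, hkb, hkb'⟩ := hbK
  have hconn : ¬ Disc (insert b K) E := conn_insert hK hkb (by rw [Sym2.eq_swap]; exact hkb')
  obtain ⟨p, hp, hpU⟩ := path_of_not_disc hconn (b := u) (d := b) (mem_insert_of_mem hu) (mem_insert_self _ _)
  have hau' : (SimpleGraph.fromEdgeSet (E : Set (Sym2 V))).Adj a u := by
    rw [SimpleGraph.fromEdgeSet_adj]
    exact ⟨by exact_mod_cast hau, fun h => haK (h ▸ hu)⟩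
  have hap : a ∉ p.support := fun h => by
    have h1 := hpU a h
    rw [mem_insert] at h1
    exact h1.elim hab haK
  have hq : (SimpleGraph.Walk.cons hau' p).IsPath := (SimpleGraph.Walk.cons_isPath_iff _ _).2 ⟨hp, hap⟩
  obtain ⟨F', h2, h3, h4, h5, h6, h7⟩ := addPathC (SimpleGraph.Walk.cons hau' p) hq F hF hab habF ha hb ho (by
    intro r hr hra hrb
    rw [SimpleGraph.Walk.support_cons, List.mem_cons] at hr
    have h1 := hpU r (hr.resolve_left hra)
    rw [mem_insert] at h1
    exact hK0 r (h1.resolve_left hrb))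
  have has : a ∈ (SimpleGraph.Walk.cons hau' p).support := by simp
  have hbs : b ∈ (SimpleGraph.Walk.cons hau' p).support := by simp
  have hus : u ∈ (SimpleGraph.Walk.cons hau' p).support := by simp
  refine ⟨F', h2, ⟨h3, ?_⟩, h4, h5 u hus, ?_, ?_⟩
  · intro T hT x hx hx0 y hy0
    have hTF : ∀ u ∈ T, ∀ w, s(u, w) ∈ F → w ∈ T := fun u hu w huw => hT u hu w (h4 huw)
    have hc := hcl T hTF (fun h => h7 T hT a has h b hbs) (fun h => h7 T hT b hbs h a has)
    have haT : a ∈ T := by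
      rcases h6 x hx0 with h8 | h8
      · exact hc x hx h8 a (by omega)
      · exact h7 T hT x h8 hx a has
    rcases h6 y hy0 with h8 | h8
    · exact hc a haT (by omega) y h8
    · exact h7 T hT a has haT y h8
  · intro v hv
    by_cases hva : v = a
    · rw [hva]; exact h5 a has
    · by_cases hvb : v = b
      · rw [hvb]; exact h5 b hbs
      · have h8 : dg F v = 2 := (ho v hva hvb).resolve_left hv
        refine (h3 v).resolve_left fun h9 => ?_
        have h10 : dg F v ≤ dg F' v := card_le_card (filter_subset_filter _ h4)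
        omega
  · intro v hv
    rcases h6 v hv with h8 | h8
    · exact Or.inl h8
    · rw [SimpleGraph.Walk.support_cons, List.mem_cons] at h8
      rcases h8 with h8 | h8
      · left; rw [h8]; omega
      · have h1 := hpU v h8
        rw [mem_insert] at h1
        rcases h1 with h1 | h1
        · left; rw [h1]; omega
        · exact Or.inr h1

/-- A cycle is extended through a connected set at one of its edges, with a prescribed vertex. -/
theorem ext_u {E F : Finset (Sym2 V)} (hE : ∀ e ∈ E, ¬ e.IsDiag) (hF : F ⊆ E) (h1 : OneF F) {K : Finset V}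
    (hK : ¬ Disc K E) (hK0 : ∀ k ∈ K, dg F k = 0) {a b u : V} (hab : s(a, b) ∈ F)
    (hu : u ∈ K) (hau : s(a, u) ∈ E) (hb : ∃ k ∈ K, s(b, k) ∈ E) :
    ∃ F' ⊆ E, OneF F' ∧ (∀ v, dg F v = 2 → dg F' v = 2) ∧ dg F' u = 2 := by
  have hne : a ≠ b := fun h => hE _ (hF hab) (by simpa using h)
  have hdg := dg_erase hab
  have ha2 : dg F a = 2 := (h1.1 a).resolve_left (dg_pos hab).ne'
  have hb2 : dg F b = 2 := (h1.1 b).resolve_left (dg_pos' hab).ne'
  have hv0 : ∀ v, v ≠ a → v ≠ b → dg (F.erase s(a, b)) v = dg F v := by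
    intro v h1 h2
    have := hdg v
    rw [if_neg (not_or.2 ⟨h1, h2⟩)] at this
    omega
  have ha1 : dg (F.erase s(a, b)) a = 1 := by
    have := hdg a
    rw [if_pos (Or.inl rfl)] at this
    omega
  have hb1 : dg (F.erase s(a, b)) b = 1 := by
    have := hdg b
    rw [if_pos (Or.inr rfl)] at this
    omega
  obtain ⟨F', h2, h3, h4, h5, h6, -⟩ := close_path (F := F.erase s(a, b)) ((erase_subset _ _).trans hF) hne
    (notMem_erase _ _) ha1 hb1 (fun v hva hvb => by rw [hv0 v hva hvb]; exact h1.1 v)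
    (fun T hT hTa hTb x hx hx0 y hy0 => by
      have hle : ∀ v, dg (F.erase s(a, b)) v ≠ 0 → dg F v ≠ 0 := by
        intro v hv
        have := hdg v
        omega
      refine h1.2 T (fun u hu w huw => ?_) x hx (hle x hx0) y (hle y hy0)
      by_cases h8 : s(u, w) = s(a, b)
      · rw [Sym2.eq_iff] at h8
        rcases h8 with ⟨rfl, rfl⟩ | ⟨rfl, rfl⟩
        · exact hTa hu
        · exact hTb hu
      · exact hT u hu w (mem_erase.2 ⟨h8, huw⟩))
    hK (fun k hk => by
      rw [hv0 k (fun h => by have := hK0 k hk; rw [h] at this; omega)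
        (fun h => by have := hK0 k hk; rw [h] at this; omega)]
      exact hK0 k hk) hu hau hb
  refine ⟨F', h2, h3, fun v hv => ?_, h5⟩
  refine h6 v ?_
  by_cases hva : v = a
  · rw [hva]; omega
  · by_cases hvb : v = b
    · rw [hvb]; omega
    · rw [hv0 v hva hvb]; omega

/-- The degrees of a path with two edges. -/
theorem dg_two {x y z : V} (hxy : x ≠ y) (hyz : y ≠ z) (hxz : x ≠ z) :
    dg ({s(x, y), s(y, z)} : Finset (Sym2 V)) x = 1 ∧ dg ({s(x, y), s(y, z)} : Finset (Sym2 V)) z = 1 ∧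
      dg ({s(x, y), s(y, z)} : Finset (Sym2 V)) y = 2 ∧
      ∀ v, v ≠ x → v ≠ y → v ≠ z → dg ({s(x, y), s(y, z)} : Finset (Sym2 V)) v = 0 := by
  have hne : s(x, y) ≠ s(y, z) := by
    intro h
    rw [Sym2.eq_iff] at h
    rcases h with h | h
    · exact hxy h.1
    · exact hxz h.1
  unfold dg
  refine ⟨?_, ?_, ?_, ?_⟩
  · rw [card_eq_one]
    refine ⟨s(x, y), ?_⟩
    ext e
    simp only [mem_filter, mem_insert, mem_singleton]
    constructor
    · rintro ⟨rfl | rfl, h⟩
      · rfl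
      · rw [Sym2.mem_iff] at h
        exact absurd h (not_or.2 ⟨hxy, hxz⟩)
    · rintro rfl
      exact ⟨Or.inl rfl, by simp⟩
  · rw [card_eq_one]
    refine ⟨s(y, z), ?_⟩
    ext e
    simp only [mem_filter, mem_insert, mem_singleton]
    constructor
    · rintro ⟨rfl | rfl, h⟩
      · rw [Sym2.mem_iff] at h
        exact absurd h (not_or.2 ⟨hxz.symm, hyz.symm⟩)
      · rfl
    · rintro rfl
      exact ⟨Or.inr rfl, by simp⟩
  · rw [card_eq_two]
    refine ⟨s(x, y), s(y, z), hne, ?_⟩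
    ext e
    simp only [mem_filter, mem_insert, mem_singleton]
    constructor
    · exact fun h => h.1
    · rintro (rfl | rfl)
      · exact ⟨Or.inl rfl, by simp⟩
      · exact ⟨Or.inr rfl, by simp⟩
  · intro v h1 h2 h3
    rw [card_eq_zero, filter_eq_empty_iff]
    intro e he hve
    simp only [mem_insert, mem_singleton] at he
    rcases he with rfl | rfl
    · rw [Sym2.mem_iff] at hve
      exact hve.elim h1 h2
    · rw [Sym2.mem_iff] at hve
      exact hve.elim h2 h3

/-- A path with two edges is closed through a connected set, with a prescribed vertex. -/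
theorem close_two {E : Finset (Sym2 V)} {a c b u : V} {K : Finset V} (hac : s(a, c) ∈ E) (hcb : s(c, b) ∈ E)
    (h1 : a ≠ c) (h2 : c ≠ b) (h3 : a ≠ b) (hK : ¬ Disc K E) (haK : a ∉ K) (hcK : c ∉ K) (hbK' : b ∉ K)
    (hu : u ∈ K) (hau : s(a, u) ∈ E) (hbK : ∃ k ∈ K, s(b, k) ∈ E) :
    ∃ F' ⊆ E, OneF F' ∧ s(a, c) ∈ F' ∧ s(c, b) ∈ F' ∧ dg F' u = 2 ∧ dg F' a = 2 ∧ dg F' c = 2 ∧ dg F' b = 2 ∧
      ∀ v, dg F' v ≠ 0 → v = a ∨ v = c ∨ v = b ∨ v ∈ K := by
  obtain ⟨d1, d2, d3, d4⟩ := dg_two h1 h2 h3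
  have hF : ({s(a, c), s(c, b)} : Finset (Sym2 V)) ⊆ E := by
    intro e he
    simp only [mem_insert, mem_singleton] at he
    rcases he with rfl | rfl
    · exact hac
    · exact hcb
  have hin : ∀ v, dg ({s(a, c), s(c, b)} : Finset (Sym2 V)) v ≠ 0 → v = a ∨ v = c ∨ v = b := by
    intro v hv
    by_contra hcon
    push Not at hcon
    exact hv (d4 v hcon.1 hcon.2.1 hcon.2.2)
  obtain ⟨F', g1, g2, g3, g4, g5, g6⟩ := close_path (F := {s(a, c), s(c, b)}) hF h3 (by
      simp only [mem_insert, mem_singleton, Sym2.eq_iff, not_or, not_and]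
      exact ⟨⟨fun _ h => h2 h.symm, fun h => absurd h h1⟩, ⟨fun h => absurd h h1, fun h => absurd h h3⟩⟩) d1 d2
    (fun v hva hvb => by
      by_cases hvc : v = c
      · rw [hvc]; exact Or.inr d3
      · exact Or.inl (d4 v hva hvc hvb))
    (fun T hT hTa hTb x hx hx0 y hy0 => by
      have hac' : a ∈ T → c ∈ T := fun h => hT a h c (by simp)
      have hca' : c ∈ T → a ∈ T := fun h => hT c h a (by simp [Sym2.eq_swap])
      have haT : a ∈ T := by
        rcases hin x hx0 with h | h | h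
        · exact h ▸ hx
        · exact hca' (h ▸ hx)
        · exact hTb (h ▸ hx)
      rcases hin y hy0 with h | h | h
      · exact h ▸ haT
      · exact h ▸ hac' haT
      · exact h ▸ hTa haT)
    hK (fun k hk => d4 k (fun h => haK (h ▸ hk)) (fun h => hcK (h ▸ hk)) (fun h => hbK' (h ▸ hk))) hu hau hbK
  refine ⟨F', g1, g2, g3 (by simp), g3 (by simp), g4, g5 a (by omega), g5 c (by omega), g5 b (by omega), ?_⟩
  intro v hv
  rcases g6 v hv with h | h
  · rcases hin v h with h | h | h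
    · exact Or.inl h
    · exact Or.inr (Or.inl h)
    · exact Or.inr (Or.inr (Or.inl h))
  · exact Or.inr (Or.inr (Or.inr h))

/-- The component of `u` outside of `S`. -/
theorem comp {E : Finset (Sym2 V)} {S : Finset V} {u : V} (hu : u ∉ S) :
    ∃ K : Finset V, u ∈ K ∧ Disjoint K S ∧ ¬ Disc K E ∧ ∀ k ∈ K, ∀ w, s(k, w) ∈ E → w ∈ K ∨ w ∈ S := by
  classical
  have hne : ((univ : Finset (Finset V)).filter fun K => u ∈ K ∧ Disjoint K S ∧ ¬ Disc K E).Nonempty := by
    refine ⟨{u}, mem_filter.2 ⟨mem_univ _, mem_singleton_self u, by simpa using hu, ?_⟩⟩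
    rintro ⟨C, D, ⟨c, hc⟩, ⟨d, hd⟩, hCD, hun, -⟩
    have h1 : c ∈ ({u} : Finset V) := by rw [← hun]; exact mem_union_left _ hc
    have h2 : d ∈ ({u} : Finset V) := by rw [← hun]; exact mem_union_right _ hd
    rw [mem_singleton] at h1 h2
    exact disjoint_left.1 hCD hc (by rw [h1, ← h2]; exact hd)
  obtain ⟨K, hK, hmax⟩ := exists_max_image _ card hne
  rw [mem_filter] at hK
  refine ⟨K, hK.2.1, hK.2.2.1, hK.2.2.2, fun k hk w hkw => ?_⟩
  by_contra hcon
  push Not at hcon
  have h1 := hmax (insert w K) (mem_filter.2 ⟨mem_univ _, mem_insert_of_mem hK.2.1, ?_, conn_insert hK.2.2.2 hk hkw⟩)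
  · rw [card_insert_of_notMem hcon.1] at h1
    omega
  · rw [disjoint_left]
    intro v hv
    rcases mem_insert.1 hv with rfl | hv
    · exact hcon.2
    · exact disjoint_left.1 hK.2.2.1 hv

end H8X
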