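import Pool.Agent.Lib.H8X.Q

/-!
# H8X, file X: the exchange for `Cov5` or one cycle in 2-connected graphs (MP_33911d)
-/

set_option autoImplicit false
set_option linter.unusedSectionVars false

namespace H8X

open Finset H98M LD H85TF H47G5 H63B

variable {V : Type*} [Fintype V] [DecidableEq V]

theorem sub_Y {E : Finset (Sym2 V)} {Y K : Finset V} (hT : TCY E Y) (hK : ¬ Disc K E) {u : V} (hu : u ∈ K)
    (huY : u ∈ Y) : K ⊆ Y := by
  intro k hk
  by_contra hkY
  refine hK ⟨K ∩ Y, K \ Y, ⟨u, mem_inter.2 ⟨hu, huY⟩⟩, ⟨k, mem_sdiff.2 ⟨hk, hkY⟩⟩, ?_, ?_, ?_⟩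
  · exact disjoint_left.2 fun v hv hv' => (mem_sdiff.1 hv').2 (mem_inter.1 hv).2
  · rw [union_comm, sdiff_union_inter]
  · intro x _ y hy hxy
    exact (mem_sdiff.1 hy).2 (hT.sub _ hxy y (by simp))

/-- A component outside of `S` has a neighbour in `S` different from `b`. -/
theorem second {E : Finset (Sym2 V)} {Y K S : Finset V} (hT : TCY E Y) (hK : ¬ Disc K E) {u : V} (hu : u ∈ K)
    (huY : u ∈ Y) (hKS : Disjoint K S) (hcl : ∀ k ∈ K, ∀ w, s(k, w) ∈ E → w ∈ K ∨ w ∈ S) {b c : V} (hbY : b ∈ Y)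
    (hbS : b ∈ S) (hcY : c ∈ Y) (hcS : c ∈ S) (hbc : c ≠ b) : ∃ z ∈ S, z ≠ b ∧ ∃ k ∈ K, s(z, k) ∈ E := by
  by_contra hcon
  push Not at hcon
  have hKY := sub_Y hT hK hu huY
  have hbK : b ∉ K := disjoint_right.1 hKS hbS
  have hcK : c ∉ K := disjoint_right.1 hKS hcS
  refine hT.conn' b hbY ⟨K, (Y.erase b) \ K, ⟨u, hu⟩, ⟨c, mem_sdiff.2 ⟨mem_erase.2 ⟨hbc, hcY⟩, hcK⟩⟩,
    disjoint_sdiff, ?_, ?_⟩
  · exact union_sdiff_of_subset fun k hk => mem_erase.2 ⟨fun h => hbK (h ▸ hk), hKY hk⟩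
  · intro x hx y hy hxy
    rw [mem_sdiff, mem_erase] at hy
    rcases hcl x hx y hxy with h | h
    · exact hy.2 h
    · exact hcon y h hy.1.1 x hx (by rw [Sym2.eq_swap]; exact hxy)

/-- THE MAIN CASE. -/
theorem main_case {E : Finset (Sym2 V)} {Y A : Finset V} (hT : TCY E Y) {b u d : V} {F0 : Finset (Sym2 V)}
    (hF0 : F0 ⊆ E) (hO : OneF F0) (hb : dg F0 b = 2) (hA : ∀ v ∈ A, dg F0 v = 2)
    (h5 : ¬ H8F.Cov5 E (insert b A)) (hu0 : dg F0 u = 0) (hbu : s(b, u) ∈ E)
    (hnu : ¬ OneCyc E (insert u (insert b A))) (hd0 : dg F0 d = 0) (hcd : Cv E (insert d A)) : False := by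
  classical
  obtain ⟨S, hSdef⟩ : ∃ S : Finset V, S = univ.filter fun v => dg F0 v = 2 := ⟨_, rfl⟩
  have hS : ∀ v, v ∈ S ↔ dg F0 v = 2 := fun v => by rw [hSdef]; simp
  have hbA : ∀ v ∈ insert b A, dg F0 v = 2 := fun v hv => by
    rcases mem_insert.1 hv with rfl | hv
    · exact hb
    · exact hA v hv
  have hS4 : S.card ≤ 4 := by
    by_contra h
    refine h5 (cov5_of_one hT.loop hF0 hO hbA ?_)
    rw [← hSdef]
    omega
  have hSY : ∀ v ∈ S, v ∈ Y := fun v hv => by
    obtain ⟨x, y, -, hx, -⟩ := two_nb ((hS v).1 hv)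
    exact hT.sub _ (hF0 hx) v (by simp)
  have hnz : ∀ {x y : V}, s(x, y) ∈ F0 → y ∈ S := fun {x y} h =>
    (hS y).2 ((hO.1 y).resolve_left (dg_pos' h).ne')
  have hbS : b ∈ S := (hS b).2 hb
  have hbY : b ∈ Y := hSY b hbS
  have huY : u ∈ Y := hT.sub _ hbu u (by simp)
  have huS : u ∉ S := fun h => by have := (hS u).1 h; omega
  have hlp : ∀ {x y : V}, s(x, y) ∈ E → x ≠ y := fun {x y} h e => hT.loop _ h (by simpa using e)
  obtain ⟨c2, c4, h24, e2, e4⟩ := two_nb hb
  obtain ⟨K, huK, hKS, hKc, hKcl⟩ := comp (E := E) (S := S) huS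
  have hK0 : ∀ k ∈ K, dg F0 k = 0 := fun k hk =>
    (hO.1 k).resolve_right fun h => disjoint_left.1 hKS hk ((hS k).2 h)
  have hext : ∀ q, s(b, q) ∈ F0 → ¬ ∃ k ∈ K, s(q, k) ∈ E := fun q hq hk => by
    obtain ⟨F', f1, f2, f3, f4⟩ := ext_u hT.loop hF0 hO hKc hK0 hq huK hbu hk
    refine hnu ⟨F', f1, f2, fun v hv => ?_⟩
    rcases mem_insert.1 hv with rfl | hv
    · exact f4
    · exact f3 v (hbA v hv)
  have h2S := hnz e2
  have h4S := hnz e4
  obtain ⟨c3, h3S, h3b, k3, hk3, hk3'⟩ := second hT hKc huK huY hKS hKcl hbY hbS (hSY c2 h2S) h2S (hlp (hF0 e2)).symm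
  have h32 : c3 ≠ c2 := fun h => hext c2 e2 ⟨k3, hk3, h ▸ hk3'⟩
  have h34 : c3 ≠ c4 := fun h => hext c4 e4 ⟨k3, hk3, h ▸ hk3'⟩
  have hb2 := hlp (hF0 e2)
  have hb4 := hlp (hF0 e4)
  have hSeq : ({b, c2, c3, c4} : Finset V) = S := by
    apply eq_of_subset_of_card_le
    · intro v hv
      simp only [mem_insert, mem_singleton] at hv
      rcases hv with rfl | rfl | rfl | rfl <;> assumption
    · rw [card_insert_of_notMem, card_insert_of_notMem, card_insert_of_notMem, card_singleton]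
      · exact hS4
      · simpa using h34
      · simp only [mem_insert, mem_singleton, not_or]
        exact ⟨h32.symm, h24⟩
      · simp only [mem_insert, mem_singleton, not_or]
        exact ⟨hb2, h3b.symm, hb4⟩
  have hmem : ∀ v, v ∈ S ↔ v = b ∨ v = c2 ∨ v = c3 ∨ v = c4 := fun v => by rw [← hSeq]; simp
  obtain ⟨x, y, hxy, ex, ey⟩ := two_nb ((hS c3).1 h3S)
  have hnb3 : ∀ w, s(c3, w) ∈ F0 → w = c2 ∨ w = c4 := by
    intro w hw
    rcases (hmem w).1 (hnz hw) with h | h | h | h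
    · exfalso
      rw [h] at hw
      exact hext c3 (by rw [Sym2.eq_swap]; exact hw) ⟨k3, hk3, hk3'⟩
    · exact Or.inl h
    · exact absurd h.symm (hlp (hF0 hw))
    · exact Or.inr h
  have e32 : s(c3, c2) ∈ F0 ∧ s(c3, c4) ∈ F0 := by
    rcases hnb3 x ex with h | h <;> rcases hnb3 y ey with h' | h'
    · exact absurd (h.trans h'.symm) hxy
    · exact ⟨h ▸ ex, h' ▸ ey⟩
    · exact ⟨h' ▸ ey, h ▸ ex⟩
    · exact absurd (h.trans h'.symm) hxy
  have hbK : b ∉ K := disjoint_right.1 hKS hbS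
  have h3K : c3 ∉ K := disjoint_right.1 hKS h3S
  have key : ∀ p q, s(b, p) ∈ F0 → s(b, q) ∈ F0 → p ≠ q → s(c3, p) ∈ F0 → s(c3, q) ∈ F0 → c3 ≠ p → c3 ≠ q →
      (∀ v, v ∈ S → v = b ∨ v = p ∨ v = c3 ∨ v = q) → p ∈ A ∧ ∀ w, s(p, w) ∈ E → w = b ∨ w = c3 := by
    intro p q ep eq' hpq e3p e3q h3p h3q hm
    have hpS := hnz ep
    have hqS := hnz eq'
    have hpK : p ∉ K := disjoint_right.1 hKS hpS
    have hqK : q ∉ K := disjoint_right.1 hKS hqS
    have hbp := hlp (hF0 ep)
    have hbq := hlp (hF0 eq')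
    constructor
    · by_contra hpA
      obtain ⟨F', f1, f2, -, -, fu, fa, fc, fb, -⟩ := close_two (hF0 eq') (by rw [Sym2.eq_swap]; exact hF0 e3q) hbq
        h3q.symm h3b.symm hKc hbK hqK h3K huK hbu ⟨k3, hk3, hk3'⟩
      refine hnu ⟨F', f1, f2, fun v hv => ?_⟩
      rcases mem_insert.1 hv with rfl | hv
      · exact fu
      · rcases hm v ((hS v).2 (hbA v hv)) with h | h | h | h
        · rw [h]; exact fa
        · exfalso
          rw [h] at hv
          rcases mem_insert.1 hv with h' | h'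
          · exact hbp h'.symm
          · exact hpA h'
        · rw [h]; exact fb
        · rw [h]; exact fc
    · intro w hw
      by_contra hcon
      push Not at hcon
      -- five vertices on a cycle
      have five : ∀ F' : Finset (Sym2 V), F' ⊆ E → OneF F' → (∀ v ∈ S, dg F' v = 2) → (∃ z, z ∉ S ∧ dg F' z = 2) →
          False := by
        rintro F' f1 f2 f3 ⟨z, hz, hz2⟩
        refine h5 (cov5_of_one hT.loop f1 f2 (fun v hv => f3 v ((hS v).2 (hbA v hv))) ?_)
        have h1 : insert z S ⊆ univ.filter fun v => dg F' v = 2 := by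
          intro v hv
          rw [mem_filter]
          refine ⟨mem_univ v, ?_⟩
          rcases mem_insert.1 hv with rfl | hv
          · exact hz2
          · exact f3 v hv
        have h2 := card_le_card h1
        rw [card_insert_of_notMem hz, ← hSeq, card_insert_of_notMem, card_insert_of_notMem, card_insert_of_notMem,
          card_singleton] at h2
        · exact h2
        · simpa using h34
        · simp only [mem_insert, mem_singleton, not_or]
          exact ⟨h32.symm, h24⟩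
        · simp only [mem_insert, mem_singleton, not_or]
          exact ⟨hb2, h3b.symm, hb4⟩
      have hwK : w ∉ K := fun h => hext p ep ⟨w, h, hw⟩
      -- a connected set which contains `q`
      have hK2 : ∃ K2 : Finset V, q ∈ K2 ∧ ¬ Disc K2 E ∧ w ∈ K2 ∧ (∀ v ∈ K2, v ∉ K ∧ v ≠ b ∧ v ≠ p ∧ v ≠ c3) := by
        by_cases hwq : w = q
        · refine ⟨{q}, mem_singleton_self q, ?_, by rw [hwq]; exact mem_singleton_self q, ?_⟩
          · rintro ⟨C, D, ⟨c, hc⟩, ⟨e, he⟩, hCD, hun, -⟩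
            have h1 : c ∈ ({q} : Finset V) := by rw [← hun]; exact mem_union_left _ hc
            have h2 : e ∈ ({q} : Finset V) := by rw [← hun]; exact mem_union_right _ he
            rw [mem_singleton] at h1 h2
            exact disjoint_left.1 hCD hc (by rw [h1, ← h2]; exact he)
          · intro v hv
            rw [mem_singleton] at hv
            rw [hv]
            exact ⟨hqK, hbq.symm, hpq.symm, h3q.symm⟩
        · have hwS : w ∉ S := fun h => by
            rcases hm w h with h | h | h | h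
            · exact hcon.1 h
            · exact (hlp hw) h.symm
            · exact hcon.2 h
            · exact hwq h
          obtain ⟨K', hwK', hKS', hKc', hKcl'⟩ := comp (E := E) (S := S) hwS
          have hwY : w ∈ Y := hT.sub _ hw w (by simp)
          have hK0' : ∀ k ∈ K', dg F0 k = 0 := fun k hk =>
            (hO.1 k).resolve_right fun h => disjoint_left.1 hKS' hk ((hS k).2 h)
          obtain ⟨z, hzS, hzp, k, hk, hk'⟩ := second hT hKc' hwK' hwY hKS' hKcl' (hSY p hpS) hpS hbY hbS hbp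
          have hgo : ∀ z, s(p, z) ∈ F0 → (∃ k ∈ K', s(z, k) ∈ E) → False := by
            intro z hpz hz
            obtain ⟨F', f1, f2, f3, f4⟩ := ext_u hT.loop hF0 hO hKc' hK0' hpz hwK' hw hz
            exact five F' f1 f2 (fun v hv => f3 v ((hS v).1 hv)) ⟨w, hwS, f4⟩
          have hzq : z = q := by
            rcases hm z hzS with h | h | h | h
            · exact (hgo b (by rw [Sym2.eq_swap]; exact ep) ⟨k, hk, h ▸ hk'⟩).elim
            · exact absurd h hzp
            · exact (hgo c3 (by rw [Sym2.eq_swap]; exact e3p) ⟨k, hk, h ▸ hk'⟩).elim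
            · exact h
          have hdisj : ∀ v ∈ K', v ∉ K := by
            intro v hv hvK
            refine hKc' ⟨K' ∩ K, K' \ K, ⟨v, mem_inter.2 ⟨hv, hvK⟩⟩, ⟨w, mem_sdiff.2 ⟨hwK', hwK⟩⟩, ?_, ?_, ?_⟩
            · exact disjoint_left.2 fun v hv hv' => (mem_sdiff.1 hv').2 (mem_inter.1 hv).2
            · rw [union_comm, sdiff_union_inter]
            · intro x hx y hy hxy
              rw [mem_inter] at hx
              rw [mem_sdiff] at hy
              rcases hKcl x hx.2 y hxy with h | h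
              · exact hy.2 h
              · exact disjoint_left.1 hKS' hy.1 h
          refine ⟨insert q K', mem_insert_self _ _, ?_, mem_insert_of_mem hwK', ?_⟩
          · exact conn_insert hKc' hk (by rw [Sym2.eq_swap]; exact hzq ▸ hk')
          · intro v hv
            rcases mem_insert.1 hv with rfl | hv
            · exact ⟨hqK, hbq.symm, hpq.symm, h3q.symm⟩
            · have h1 := disjoint_left.1 hKS' hv
              exact ⟨hdisj v hv, fun h => h1 (h ▸ hbS), fun h => h1 (h ▸ hpS), fun h => h1 (h ▸ h3S)⟩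
      obtain ⟨K2, hqK2, hK2c, hwK2, hK2d⟩ := hK2
      obtain ⟨F', f1, f2, fbp, -, fu, fa, fc, fb, fs⟩ := close_two (hF0 ep) (by rw [Sym2.eq_swap]; exact hF0 e3p) hbp
        h3p.symm h3b.symm hKc hbK hpK h3K huK hbu ⟨k3, hk3, hk3'⟩
      have hK20 : ∀ k ∈ K2, dg F' k = 0 := by
        intro k hk
        by_contra h
        obtain ⟨h1, h2, h3, h4⟩ := hK2d k hk
        rcases fs k h with h | h | h | h
        · exact h2 h
        · exact h3 h
        · exact h4 h
        · exact h1 h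
      obtain ⟨F2, g1, g2, g3, g4⟩ := ext_u hT.loop f1 f2 hK2c hK20 fbp hqK2 (hF0 eq') ⟨w, hwK2, hw⟩
      refine five F2 g1 g2 (fun v hv => ?_) ⟨u, huS, g3 u fu⟩
      rcases hm v hv with h | h | h | h
      · rw [h]; exact g3 b fa
      · rw [h]; exact g3 p fc
      · rw [h]; exact g3 c3 fb
      · rw [h]; exact g4
  obtain ⟨hA2, hn2⟩ := key c2 c4 e2 e4 h24 e32.1 e32.2 h32 h34 (fun v hv => (hmem v).1 hv)
  obtain ⟨hA4, hn4⟩ := key c4 c2 e4 e2 h24.symm e32.2 e32.1 h34 h32 (fun v hv => by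
    rcases (hmem v).1 hv with h | h | h | h
    · exact Or.inl h
    · exact Or.inr (Or.inr (Or.inr h))
    · exact Or.inr (Or.inr (Or.inl h))
    · exact Or.inr (Or.inl h))
  -- both edges at `c2` and `c4`
  have hboth : ∀ {F : Finset (Sym2 V)} {p : V}, F ⊆ E → dg F p = 2 → (∀ w, s(p, w) ∈ E → w = b ∨ w = c3) →
      s(p, b) ∈ F ∧ s(p, c3) ∈ F := by
    intro F p hF hp hn
    obtain ⟨x, y, hxy, hx, hy⟩ := two_nb hp
    rcases hn x (hF hx) with h | h <;> rcases hn y (hF hy) with h' | h'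
    · exact absurd (h.trans h'.symm) hxy
    · exact ⟨h ▸ hx, h' ▸ hy⟩
    · exact ⟨h' ▸ hy, h ▸ hx⟩
    · exact absurd (h.trans h'.symm) hxy
  have sw : ∀ {F : Finset (Sym2 V)} {x y : V}, s(x, y) ∈ F → s(y, x) ∈ F := fun {F x y} h => by
    rw [Sym2.eq_swap]; exact h
  rcases hcd with ⟨F, hF, -, -, hq, hd⟩ | ⟨F, hF, ⟨hdg, hcl⟩, hd⟩
  · obtain ⟨a1, a2⟩ := hboth hF (hd c2 (mem_insert_of_mem hA2)) hn2
    obtain ⟨a3, a4⟩ := hboth hF (hd c4 (mem_insert_of_mem hA4)) hn4
    exact hq b c2 c3 c4 h3b.symm h24 (sw a1) a2 (sw a4) a3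
  · obtain ⟨a1, a2⟩ := hboth hF (hd c2 (mem_insert_of_mem hA2)) hn2
    obtain ⟨a3, a4⟩ := hboth hF (hd c4 (mem_insert_of_mem hA4)) hn4
    have hb2' : dg F b = 2 := (hdg b).resolve_left (dg_pos' a1).ne'
    have h32' : dg F c3 = 2 := (hdg c3).resolve_left (dg_pos' a2).ne'
    have h1 := hcl S (fun a ha w hw => by
      rcases (hmem a).1 ha with rfl | rfl | rfl | rfl
      · rcases deg3 hb2' (sw a1) (sw a3) hw h24 with h | h
        · exact h ▸ h2S
        · exact h ▸ h4S
      · rcases hn2 w (hF hw) with h | h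
        · exact h ▸ hbS
        · exact h ▸ h3S
      · rcases deg3 h32' (sw a2) (sw a4) hw h24 with h | h
        · exact h ▸ h2S
        · exact h ▸ h4S
      · rcases hn4 w (hF hw) with h | h
        · exact h ▸ hbS
        · exact h ▸ h3S) c2 h2S (by rw [hd c2 (mem_insert_of_mem hA2)]; omega) d
      (by rw [hd d (mem_insert_self _ _)]; omega)
    have := (hS d).1 h1
    omega

theorem half {E : Finset (Sym2 V)} {Y A U : Finset V} (hT : TCY E Y) {b d : V} (hb : OneCyc E (insert b A))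
    (h5 : ¬ H8F.Cov5 E (insert b A)) (hd : Cv E (insert d A)) (hbd : b ≠ d) (hbU : b ∈ U) (hdU : d ∈ U)
    (hU : ¬ Disc U E) (hin : ∀ u ∈ U, u ≠ b → u ≠ d → ¬ Cv E (insert u A)) : Cv E (insert b (insert d A)) := by
  by_contra hcon
  obtain ⟨F0, hF0, hO, hall⟩ := hb
  obtain ⟨u, huU, hub, hbu⟩ : ∃ u ∈ U, u ≠ b ∧ s(b, u) ∈ E := by
    by_contra h
    push Not at h
    refine hU ⟨{b}, U.erase b, singleton_nonempty b, ⟨d, mem_erase.2 ⟨hbd.symm, hdU⟩⟩, ?_, ?_, ?_⟩
    · rw [disjoint_singleton_left]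
      exact notMem_erase _ _
    · rw [← insert_eq, insert_erase hbU]
    · intro x hx y hy hxy
      rw [mem_singleton] at hx
      subst hx
      exact h y (mem_of_mem_erase hy) (ne_of_mem_erase hy) hxy
  have h2 : ∀ v, dg F0 v ≠ 0 → OneCyc E (insert v (insert b A)) := fun v hv =>
    ⟨F0, hF0, hO, fun w hw => by
      rcases mem_insert.1 hw with rfl | hw
      · exact (hO.1 _).resolve_left hv
      · exact hall w hw⟩
  have h3 : ¬ OneCyc E (insert u (insert b A)) := by
    intro h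
    by_cases hud : u = d
    · rw [hud, insert_comm] at h
      exact hcon (Or.inr h)
    · exact hin u huU hub hud (Or.inr (oneCyc_sub (insert_subset_insert _ (subset_insert _ _)) h))
  refine main_case hT hF0 hO (hall b (mem_insert_self _ _)) (fun v hv => hall v (mem_insert_of_mem hv)) h5
    (by by_contra h; exact h3 (h2 u h)) hbu h3 ?_ hd
  by_contra h
  have h4 := h2 d h
  rw [insert_comm] at h4
  exact hcon (Or.inr h4)

/-- THE EXCHANGE for `Cov5` or one cycle in 2-connected graphs. -/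
theorem exch {E : Finset (Sym2 V)} {Y A U : Finset V} (hT : TCY E Y) {b d : V} (hb : Cv E (insert b A))
    (hd : Cv E (insert d A)) (hbU : b ∈ U) (hdU : d ∈ U) (hU : ¬ Disc U E)
    (hin : ∀ u ∈ U, u ≠ b → u ≠ d → ¬ Cv E (insert u A)) : Cv E (insert b (insert d A)) := by
  by_cases hbd : b = d
  · subst hbd
    rw [insert_idem]
    exact hb
  by_cases h1 : H8F.Cov5 E (insert b A)
  · by_cases h2 : H8F.Cov5 E (insert d A)
    · exact Or.inl (H9TP.exch5_set hT.loop h1 h2 hbU hdU hU fun u hu hub hud h => hin u hu hub hud (Or.inl h))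
    · rw [insert_comm]
      exact half hT (hd.resolve_left h2) h2 hb (Ne.symm hbd) hdU hbU hU fun u hu hud hub => hin u hu hub hud
  · exact half hT (hb.resolve_left h1) h1 hd hbd hbU hdU hU hin

end H8X
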